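import Mathlib

open AddMonoidAlgebra

namespace Pool.Agent.Results.MP_847c7e_pr.Boltz

/-- `μ` is a finitely supported probability measure on `ℤ^d`; the product of `AddMonoidAlgebra` is convolution -/
def Prob {d : ℕ} (μ : AddMonoidAlgebra ℝ (Fin d → ℤ)) : Prop :=
  (∀ x, 0 ≤ μ.coeff x) ∧ ∑ x ∈ μ.coeff.support, μ.coeff x = 1

section
variable {G : Type} [AddCommGroup G] (w : G →+ ℤ)

def F (n : ℤ) : Submodule ℝ ℝ[G] where
  carrier := {f | ∀ x, w x < n → f.coeff x = 0}
  add_mem' a b x h := by simp [a x h, b x h]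
  zero_mem' := by simp
  smul_mem' c f a x h := by simp [a x h]

def NN (f : ℝ[G]) : Prop := ∀ x, 0 ≤ f.coeff x
def Cn (p : ℝ[G]) : Prop := NN (p - 1) ∧ p - 1 ∈ F w 1

variable {w}
lemma Fmul {m n k f g} (a : f ∈ F w m) (b : g ∈ F w n) (h : k ≤ m + n) : f * g ∈ F w k := fun x hx => by
  classical
  rw [coeff_mul]
  refine Finset.sum_eq_zero fun y _ => Finset.sum_eq_zero fun z _ => ?_
  dsimp only; split_ifs with e
  · subst e; rw [map_add] at hx
    by_cases c : w y < m
    · simp [a y c]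
    · simp [b z (by omega)]
  · rfl
lemma Fle {m n f} (a : f ∈ F w m) (h : n ≤ m) : f ∈ F w n := fun x hx => a x (by omega)
lemma Fs {n x} (a : ℝ) (h : n ≤ w x) : single x a ∈ F w n := fun y hy => by
  rw [coeff_single, Finsupp.single_eq_of_ne]; rintro rfl; omega
lemma co {x : G} (h : x ≠ 0) : (1 : ℝ[G]).coeff x = 0 := by simp [one_def, h]
lemma F1 : (1 : ℝ[G]) ∈ F w 0 := Fs 1 (by simp)
lemma F0 {p : ℝ[G]} (h : p - 1 ∈ F w 1) : p ∈ F w 0 := by simpa using add_mem (Fle h (n := 0) (by omega)) F1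
lemma NN.add {f g : ℝ[G]} (a : NN f) (b : NN g) : NN (f + g) := fun x => add_nonneg (a x) (b x)
lemma NN.mul {f g : ℝ[G]} (a : NN f) (b : NN g) : NN (f * g) := fun x => by
  classical
  rw [coeff_mul]
  refine Finset.sum_nonneg fun y _ => Finset.sum_nonneg fun z _ => ?_
  dsimp only; split_ifs
  exacts [mul_nonneg (a y) (b z), le_rfl]
omit [AddCommGroup G] in
lemma NNs (x : G) {a : ℝ} (h : 0 ≤ a) : NN (single x a) := fun y => by
  classical
  rw [coeff_single, Finsupp.single_apply]; split_ifs; exacts [h, le_rfl]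
lemma Cn.mul {p q : ℝ[G]} (a : Cn w p) (b : Cn w q) : Cn w (p * q) := by
  have : p * q - 1 = (p - 1) * (q - 1) + (p - 1) + (q - 1) := by ring
  rw [Cn, this]
  exact ⟨((a.1.mul b.1).add a.1).add b.1, add_mem (add_mem (Fmul a.2 b.2 (by omega)) a.2) b.2⟩
lemma Cn1 {r : ℝ[G]} (a : NN r) (b : r ∈ F w 1) : Cn w (1 + r) := by simpa [Cn] using ⟨a, b⟩
lemma split {k} {f : ℝ[G]} (h : f ∈ F w k) : ∃ r, NN r ∧ r ∈ F w k ∧ NN (f + r) :=
  ⟨.ofCoeff (f.coeff.mapRange abs abs_zero), fun x => by simp, fun x hx => by simp [h x hx],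
    fun x => by simpa using neg_le_iff_add_nonneg'.1 (neg_le_abs _)⟩
lemma cancel {x a : ℝ[G]} (h : x ∈ F w 0) (ha : a - 1 ∈ F w 1) (k : ℕ) (hk : x * a ∈ F w k) : x ∈ F w k := by
  induction k with
  | zero => exact h
  | succ k ih =>
    have := sub_mem hk (Fmul (ih (Fle hk (by push_cast; omega))) ha (by push_cast; omega))
    rwa [show x * a - x * (a - 1) = x by ring] at this

lemma lin {f : ℝ → ℝ} (h : ∀ a b, 0 ≤ a → 0 ≤ b → f (a + b) = f a + f b) (h0 : ∀ a, 0 ≤ a → 0 ≤ f a) {a : ℝ}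
    (ha : 0 ≤ a) : f a = a * f 1 := by
  have z : f 0 = 0 := by have := h 0 0 le_rfl le_rfl; simp at this; exact this
  have k : ∀ x y, 0 ≤ x → 0 ≤ y → f (max (x - y) 0) - f (max (y - x) 0) = f x - f y := fun x y hx hy => by
    rcases le_total x y with c | c
    · have := h x (y - x) hx (by linarith)
      rw [max_eq_right (by linarith), max_eq_left (by linarith), z]; simp at this; linarith
    · have := h y (x - y) hy (by linarith)
      rw [max_eq_left (by linarith), max_eq_right (by linarith), z]; simp at this; linarith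
  let g : ℝ →+ ℝ := .mk' (fun x => f (max x 0) - f (max (-x) 0)) fun x y => by
    have := k (max x 0 + max y 0) (max (-x) 0 + max (-y) 0) (by positivity) (by positivity)
    rw [h _ _ (by positivity) (by positivity), h _ _ (by positivity) (by positivity)] at this
    have a := max_zero_sub_max_neg_zero_eq_self x
    have b := max_zero_sub_max_neg_zero_eq_self y
    rw [show x + y = max x 0 + max y 0 - (max (-x) 0 + max (-y) 0) by linarith, neg_sub, this]; ring
  have e : ∀ x, 0 ≤ x → g x = f x := fun x hx => by simp [g, hx, z]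
  have m : Monotone g := fun x y hxy => by
    have := map_sub g y x; linarith [e _ (sub_nonneg.2 hxy), h0 _ (sub_nonneg.2 hxy)]
  simpa [e, ha] using map_real_smul g (MeasureTheory.Measure.AddMonoidHom.continuous_of_measurable g m.measurable) a 1

structure Good (Ψ : ℝ[G] → ℝ[G]) : Prop where
  cn : ∀ {w p}, Cn w p → Cn w (Ψ p)
  su : ∀ {w p}, Cn w p → ∀ x, p.coeff x = 0 → (Ψ p).coeff x = 0
  mu : ∀ {w p q}, Cn w p → Cn w q → Ψ (p * q) = Ψ p * Ψ q

variable {Ψ : ℝ[G] → ℝ[G]} (H : Good Ψ)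
include H
lemma sup {p : ℝ[G]} (h : Cn w p) {x} (e : (p - 1).coeff x = 0) : (Ψ p - 1).coeff x = 0 := by
  by_cases c : x = 0
  · exact (H.cn h).2 x (by simp [c])
  · simp only [coeff_sub, one_def, coeff_single, Finsupp.sub_apply, Finsupp.single_eq_of_ne c, sub_zero] at e ⊢
    exact H.su h x e

lemma key {p q : ℝ[G]} (hp : Cn w p) (hq : Cn w q) {k : ℤ} (h : p - q ∈ F w k) : Ψ p - Ψ q ∈ F w k := by
  rcases le_or_gt k 1 with c | c
  · simpa using Fle (sub_mem (H.cn hp).2 (H.cn hq).2) c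
  lift k to ℕ using by omega
  have pw : ∀ j : ℕ, (1 - p) ^ j ∈ F w j := fun j => by
    induction j with
    | zero => simpa using F1
    | succ j ih => rw [pow_succ]; exact Fmul ih (by simpa using neg_mem hp.2) (by push_cast; omega)
  set T := ∑ j ∈ Finset.range k, (1 - p) ^ j
  have hT : T ∈ F w 0 := sum_mem fun j _ => Fle (pw j) (by omega)
  have a : p * T - 1 ∈ F w k := by
    have := mul_neg_geom_sum (1 - p) k
    rw [sub_sub_cancel] at this
    simpa [T, this] using pw k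
  have b : q * T - 1 ∈ F w k := by
    have := sub_mem a (Fmul h hT (by omega))
    rwa [show p * T - 1 - (p - q) * T = q * T - 1 by ring] at this
  obtain ⟨r, r1, r2, r3⟩ := split a
  obtain ⟨s, s1, s2, s3⟩ := split b
  have u : ∀ {p r s : ℝ[G]}, Cn w p → p * T - 1 ∈ F w k → NN r → NN s → r ∈ F w k → s ∈ F w k → NN (p * T - 1 + r) →
      Cn w (p * (T + (r + s))) ∧ Ψ (p * (T + (r + s))) - 1 ∈ F w k := fun {p r s} hp a r1 s1 r2 s2 r3 => by
    have e : p * (T + (r + s)) - 1 = p * T - 1 + r + s + (p - 1) * (r + s) := by ring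
    have f : p * (T + (r + s)) - 1 ∈ F w k :=
      e ▸ add_mem (add_mem (add_mem a r2) s2) (Fmul hp.2 (add_mem r2 s2) (by omega))
    have g : Cn w (p * (T + (r + s))) := ⟨e ▸ (r3.add s1).add (hp.1.mul (r1.add s1)), Fle f (by omega)⟩
    exact ⟨g, fun x hx => sup H g (f x hx)⟩
  obtain ⟨P1, P2⟩ := u hp a r1 s1 r2 s2 r3
  obtain ⟨Q1, Q2⟩ := u hq b s1 r1 s2 r2 s3
  have e := H.mu hp Q1
  rw [show p * (q * (T + (s + r))) = q * (p * (T + (r + s))) by ring, H.mu hq P1] at e
  have := sub_mem (Fmul (k := k) (F0 (H.cn hq).2) P2 (by omega)) (Fmul (k := k) (F0 (H.cn hp).2) Q2 (by omega))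
  rwa [mul_sub, mul_sub, e, show ∀ a b c : ℝ[G], a - b * 1 - (a - c * 1) = c - b from fun _ _ _ => by ring] at this

lemma bin {x} (hx : 1 ≤ w x) {a : ℝ} (ha : 0 ≤ a) :
    Ψ (1 + single x a) = 1 + single x (a * (Ψ (1 + single x 1)).coeff x) := by
  have x0 : x ≠ 0 := by rintro rfl; simp at hx
  have c : ∀ {a : ℝ}, 0 ≤ a → Cn w (1 + single x a) := fun h => Cn1 (NNs x h) (Fs _ hx)
  have e : ∀ {a : ℝ}, 0 ≤ a → Ψ (1 + single x a) = 1 + single x ((Ψ (1 + single x a)).coeff x) := fun h => by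
    rw [← sub_eq_iff_eq_add']
    ext y
    by_cases e : y = x
    · simp [e, one_def, x0]
    · rw [sup H (c h) (by simp [e])]; simp [e]
  rw [e ha, lin (f := fun a => (Ψ (1 + single x a)).coeff x) (fun a b ha hb => ?_) (fun a ha => ?_) ha]
  · have := key H ((c ha).mul (c hb)) (c (add_nonneg ha hb)) (k := w x + 1) (by
      rw [single_add, show ∀ a b : ℝ[G], (1 + a) * (1 + b) - (1 + (a + b)) = a * b from fun _ _ => by ring]
      exact Fmul (Fs _ le_rfl) (Fs _ hx) le_rfl) x (by omega)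
    rw [H.mu (c ha) (c hb), e ha, e hb, e (add_nonneg ha hb)] at this
    simp [-single_add, mul_add, add_mul, single_mul_single, x0, co x0] at this
    linarith
  · simpa [co x0] using (H.cn (c ha)).1 x

lemma mult {x y} (hx : 1 ≤ w x) (hy : 1 ≤ w y) : (Ψ (1 + single (x + y) 1)).coeff (x + y) =
    (Ψ (1 + single x 1)).coeff x * (Ψ (1 + single y 1)).coeff y := by
  have x0 : x ≠ 0 := by rintro rfl; simp at hx
  have y0 : y ≠ 0 := by rintro rfl; simp at hy
  have hz : 1 ≤ w (x + y) := by rw [map_add]; omega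
  have z0 : x + y ≠ 0 := fun e => by simp [e] at hz
  have c : ∀ {x}, 1 ≤ w x → Cn w (1 + single x 1) := fun h => Cn1 (NNs _ zero_le_one) (Fs _ h)
  have p : Cn w (1 + (single x 1 + single y 1)) :=
    Cn1 ((NNs _ zero_le_one).add (NNs _ zero_le_one)) (add_mem (Fs _ hx) (Fs _ hy))
  have := key H (p.mul (c hz)) ((c hx).mul (c hy)) (k := w (x + y) + 1) (by
    rw [show single (x + y) (1 : ℝ) = single x 1 * single y 1 by simp [single_mul_single],
      show ∀ a b : ℝ[G], (1 + (a + b)) * (1 + a * b) - (1 + a) * (1 + b) = (a + b) * (a * b) from fun _ _ => by ring]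
    exact Fmul (add_mem (Fs _ hx) (Fs _ hy)) (Fmul (k := w (x + y)) (Fs _ le_rfl) (Fs _ le_rfl) (by simp))
      (by omega)) (x + y)
      (by omega)
  rw [H.mu p (c hz), H.mu (c hx) (c hy), bin H hx zero_le_one, bin H hy zero_le_one, bin H hz zero_le_one] at this
  have a := H.su p (x + y) (by simp [one_def, x0, y0, z0])
  have b := (H.cn p).2 0 (by simp)
  simp [sub_eq_zero] at b
  simp [mul_add, add_mul, single_mul_single, x0, y0, co z0, a, b] at this
  linarith

lemma main (σ : ℝ[G] →+* ℝ[G]) (l : G → ℝ) (hσ : ∀ f x, (σ f).coeff x = l x * f.coeff x)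
    (hl : ∀ x, x ≠ 0 → l x = (Ψ (1 + single x 1)).coeff x) {p : ℝ[G]} (hp : Cn w p) : Ψ p = σ p := by
  have σF : ∀ {f k}, f ∈ F w k → σ f ∈ F w k := fun h x hx => by rw [hσ, h x hx, mul_zero]
  have R : ∀ {k : ℕ} {r : ℝ[G]}, NN r → r ∈ F w (k + 1) → ∃ E, Cn w E ∧ Ψ E = σ E ∧ E - 1 - r ∈ F w (k + 2) := by
    intro k r h1 h2
    have : ∀ s ⊆ r.coeff.support, ∃ E, Cn w E ∧ Ψ E = σ E ∧ E - 1 - ∑ x ∈ s, single x (r.coeff x) ∈ F w (k + 2) := by
      classical
      intro s hs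
      induction s using Finset.induction with
      | empty =>
        have : Cn w 1 := by simpa using Cn1 (r := 0) (fun _ => le_rfl) (zero_mem _)
        exact ⟨1, this, by rw [map_one, ← sub_eq_zero]; ext x; exact sup H this (by simp), by simp⟩
      | insert x s hx ih =>
        obtain ⟨E, e1, e2, e3⟩ := ih ((Finset.subset_insert _ _).trans hs)
        have wx : k + 1 ≤ w x := not_lt.1 fun c => Finsupp.mem_support_iff.1 (hs (Finset.mem_insert_self _ _)) (h2 x c)
        have c := Cn1 (w := w) (NNs x (h1 x)) (Fs _ (by omega))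
        refine ⟨_, c.mul e1, ?_, ?_⟩
        · rw [H.mu c e1, e2, map_mul, map_add, map_one, bin H (w := w) (by omega) (h1 x), ← hl x (by rintro rfl; simp at wx; omega)]
          congr 2; ext y
          by_cases e : y = x <;> simp [hσ, e, mul_comm]
        · rw [Finset.sum_insert hx, show ∀ a E t : ℝ[G], (1 + a) * E - 1 - (a + t) = E - 1 - t + a * (E - 1) from
            fun _ _ _ => by ring]
          exact add_mem e3 (Fmul (Fs _ wx) e1.2 (by omega))
    have := this _ le_rfl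
    rwa [show ∑ x ∈ r.coeff.support, single x (r.coeff x) = r from sum_coeff_single r] at this
  have S : ∀ k : ℕ, ∃ a b, Cn w a ∧ Ψ a = σ a ∧ Cn w b ∧ Ψ b = σ b ∧ p * a - b ∈ F w (k + 1) := fun k => by
    induction k with
    | zero =>
      obtain ⟨E, e1, e2, -⟩ := R (k := 0) (r := 0) (fun _ => le_rfl) (zero_mem _)
      exact ⟨E, E, e1, e2, e1, e2, by simpa using sub_mem (hp.mul e1).2 e1.2⟩
    | succ k ih =>
      obtain ⟨a, b, a1, a2, b1, b2, h⟩ := ih
      obtain ⟨r, r1, r2, r3⟩ := split h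
      obtain ⟨E, e1, e2, e3⟩ := R r1 r2
      obtain ⟨D, d1, d2, d3⟩ := R r3 (add_mem h r2)
      refine ⟨a * E, b * D, a1.mul e1, by rw [H.mu a1 e1, a2, e2, map_mul], b1.mul d1,
        by rw [H.mu b1 d1, b2, d2, map_mul], ?_⟩
      rw [show p * (a * E) - b * D = p * a * (E - 1 - r) - b * (D - 1 - (p * a - b + r)) + (p * a - 1) * r -
        (b - 1) * (p * a - b + r) by ring]
      exact sub_mem (add_mem (sub_mem (Fmul (F0 (hp.mul a1).2) e3 (by push_cast; omega))
        (Fmul (F0 b1.2) d3 (by push_cast; omega))) (Fmul (hp.mul a1).2 r2 (by push_cast; omega)))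
        (Fmul b1.2 (add_mem h r2) (by push_cast; omega))
  rw [← sub_eq_zero]; ext x
  obtain ⟨a, b, a1, a2, b1, b2, h⟩ := S (w x).toNat
  have u := key H (hp.mul a1) b1 h
  have v := σF h
  rw [map_sub, map_mul, ← a2, ← b2] at v
  rw [H.mu hp a1] at u
  have := sub_mem u v
  rw [show ∀ a b c d : ℝ[G], a * c - d - (b * c - d) = (a - b) * c from fun _ _ _ _ => by ring] at this
  exact cancel (sub_mem (F0 (H.cn hp).2) (σF (F0 hp.2))) (H.cn a1).2 ((w x).toNat + 1) this x (by push_cast; omega)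
end

lemma sep {d : ℕ} (s : Finset (Fin d → ℤ)) : ∃ w : (Fin d → ℤ) →+ ℤ, ∀ z ∈ s, z ≠ 0 → w z ≠ 0 := by
  classical
  let P : (Fin d → ℤ) → Polynomial ℤ := fun z => ∑ i : Fin d, Polynomial.monomial i (z i)
  have : ∀ z, z ≠ 0 → P z ≠ 0 := fun z h e => h (funext fun i => by
    simpa [P, Polynomial.finsetSum_coeff, Polynomial.coeff_monomial, Fin.val_inj] using congrArg (Polynomial.coeff · i) e)
  obtain ⟨t, ht⟩ := Infinite.exists_notMem_finset (s.biUnion fun z => (P z).roots.toFinset)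
  refine ⟨.mk' (fun z => ∑ i, z i * t ^ (i : ℕ)) fun _ _ => by simp [add_mul, Finset.sum_add_distrib], fun z hz h e => ht ?_⟩
  refine Finset.mem_biUnion.2 ⟨z, hz, Multiset.mem_toFinset.2 ((Polynomial.mem_roots (this z h)).2 ?_)⟩
  simpa [P, Polynomial.eval_finsetSum] using e

theorem result (d : ℕ) (Φ : AddMonoidAlgebra ℝ (Fin d → ℤ) → AddMonoidAlgebra ℝ (Fin d → ℤ)) (hP : ∀ μ, Prob μ → Prob (Φ μ))
    (hm : ∀ μ ν, Prob μ → Prob ν → Φ (μ * ν) = Φ μ * Φ ν)
    (hs : ∀ μ, Prob μ → (Φ μ).coeff.support = μ.coeff.support) :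
    ∃ β : Fin d → ℝ, ∀ μ, Prob μ → ∀ x, (Φ μ).coeff x = μ.coeff x * Real.exp (-∑ i, β i * x i) /
      ∑ y ∈ μ.coeff.support, μ.coeff y * Real.exp (-∑ i, β i * y i) := by
  classical
  let m : ℝ[Fin d → ℤ] →ₐ[ℝ] ℝ := lift ℝ ℝ _ 1
  have hm' : ∀ f, m f = ∑ x ∈ f.coeff.support, f.coeff x := fun f => by simp [m, lift_apply, Finsupp.sum]
  have pr : ∀ {f}, NN f → m f = 1 → Prob f := fun a b => ⟨a, hm' _ ▸ b⟩
  have nn : ∀ {w p}, Cn w p → NN (G := Fin d → ℤ) p ∧ p.coeff 0 = 1 ∧ 0 < m p := fun {w p} h => by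
    refine ⟨by simpa [← one_def] using h.1.add (NNs 0 zero_le_one), by simpa [sub_eq_zero] using h.2 0 (by simp), ?_⟩
    have : 0 ≤ m (p - 1) := hm' _ ▸ Finset.sum_nonneg fun x _ => h.1 x
    rw [map_sub, map_one] at this; linarith
  have pn : ∀ {w p}, Cn w p → Prob ((m p)⁻¹ • p) := fun h => pr (fun x => by
    simpa using mul_nonneg (inv_pos.2 (nn h).2.2).le ((nn h).1 x)) (by simp [(nn h).2.2.ne'])
  have z : ∀ {μ}, Prob μ → ∀ x, (Φ μ).coeff x = 0 ↔ μ.coeff x = 0 := fun h x => by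
    rw [← Finsupp.notMem_support_iff, hs _ h, Finsupp.notMem_support_iff]
  have c0 : ∀ {w p}, Cn w p → 0 < (Φ ((m p)⁻¹ • p)).coeff 0 := fun h => ((hP _ (pn h)).1 0).lt_of_ne' (by
    rw [Ne, z (pn h)]; simp [(nn h).2.1, (nn h).2.2.ne'])
  let Ψ : ℝ[Fin d → ℤ] → ℝ[Fin d → ℤ] := fun p => ((Φ ((m p)⁻¹ • p)).coeff 0)⁻¹ • Φ ((m p)⁻¹ • p)
  have su : ∀ {w p}, Cn w p → ∀ x, (Ψ p).coeff x = 0 ↔ p.coeff x = 0 := fun h x => by
    simp [Ψ, (c0 h).ne', z (pn h), (nn h).2.2.ne']
  have cn : ∀ {w p}, Cn w p → Cn w (Ψ p) := fun {w p} h => by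
    have a : (Ψ p - 1).coeff 0 = 0 := by simp [Ψ, (c0 h).ne']
    refine ⟨fun x => ?_, fun x hx => ?_⟩ <;> rcases eq_or_ne x 0 with rfl | e
    · exact a.ge
    · simpa [co e, Ψ] using mul_nonneg (inv_pos.2 (c0 h)).le ((hP _ (pn h)).1 x)
    · exact a
    · simpa [co e, su h] using h.2 x hx
  have H : Good Ψ := ⟨cn, fun h x => (su h x).2, fun {w p q} hp hq => by
    have a := (nn ((cn hp).mul (cn hq))).2.1
    have e : (m (p * q))⁻¹ • (p * q) = (m p)⁻¹ • p * (m q)⁻¹ • q := by rw [smul_mul_smul_comm, map_mul, mul_inv]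
    simp only [Ψ, e, hm _ _ (pn hp) (pn hq)] at a ⊢
    simp only [smul_mul_smul_comm, coeff_smul, Finsupp.smul_apply, smul_eq_mul] at a ⊢
    rw [← eq_inv_of_mul_eq_one_left a]⟩
  have ps : ∀ v : Fin d → ℤ, Prob (single v 1) := fun v => pr (NNs _ zero_le_one) (by simp [m])
  have tr : ∀ v, Φ (single v 1) = single v 1 := fun v => by
    have a := (hP _ (ps v)).2
    rw [hs _ (ps v), coeff_single, Finsupp.support_single _ one_ne_zero, Finset.sum_singleton] at a
    ext x
    by_cases e : x = v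
    · simp [e, a]
    · simp [e, z (ps v)]
  let l : (Fin d → ℤ) → ℝ := fun x => if x = 0 then 1 else (Ψ (1 + single x 1)).coeff x
  have cb : ∀ {w : (Fin d → ℤ) →+ ℤ} {x}, 1 ≤ w x → Cn w (1 + single x 1) := fun h => Cn1 (NNs _ zero_le_one) (Fs _ h)
  have ne : ∀ {w : (Fin d → ℤ) →+ ℤ} {x}, 1 ≤ w x → x ≠ 0 := fun h => by rintro rfl; simp at h
  have l1 : ∀ (w : (Fin d → ℤ) →+ ℤ) x y, 1 ≤ w x → 1 ≤ w y → l (x + y) = l x * l y := fun w x y hx hy => by
    simp only [l, ne hx, ne hy, ne (w := w) (x := x + y) (by rw [map_add]; omega), if_false, mult H hx hy]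
  have l2 : ∀ (w : (Fin d → ℤ) →+ ℤ) x, 1 ≤ w x → l x * l (-x) = 1 ∧ 0 < l x := fun w x hx => by
    have e : (m (1 + single (-x) 1))⁻¹ • (1 + single (-x) 1) =
        (m (1 + single x 1))⁻¹ • (1 + single x 1) * single (-x) (1 : ℝ) := by
      simp [m, add_mul, single_mul_single, add_comm, one_def]
    have a := c0 (cb hx)
    have b : 0 < (Φ ((m (1 + single x 1))⁻¹ • (1 + single x 1))).coeff x := ((hP _ (pn (cb hx))).1 x).lt_of_ne' (by
      rw [Ne, z (pn (cb hx))]; simpa [co (ne hx)] using (nn (cb hx)).2.2.ne')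
    simp only [l, ne hx, neg_eq_zero, if_false, Ψ, e, hm _ _ (pn (cb hx)) (ps _), tr]
    simp only [coeff_smul, Finsupp.smul_apply, smul_eq_mul, coeff_mul_single_apply, neg_neg, zero_add, neg_add_cancel]
    generalize Φ _ = f at a b ⊢
    exact ⟨by field_simp, by positivity⟩
  have l3 : ∀ x, l x * l (-x) = 1 ∧ 0 < l x := fun x => by
    rcases eq_or_ne x 0 with rfl | e
    · simp [l]
    obtain ⟨w, hw⟩ := sep {x}
    rcases (hw x (by simp) e).lt_or_gt with c | c
    exacts [l2 (-w) x (by simp; omega), l2 w x c]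
  have l4 : ∀ x y, l (x + y) = l x * l y := by
    have k : ∀ (w : (Fin d → ℤ) →+ ℤ) x y, 1 ≤ w x → 1 ≤ w (-y) → 1 ≤ w (x + y) → l (x + y) = l x * l y :=
      fun w x y a b c => by
        have := l1 w _ _ c b
        rw [add_neg_cancel_right] at this
        rw [this, mul_assoc, mul_comm (l (-y)), (l3 y).1, mul_one]
    intro x y
    rcases eq_or_ne x 0 with rfl | hx
    · simp [l]
    rcases eq_or_ne y 0 with rfl | hy
    · simp [l]
    rcases eq_or_ne (x + y) 0 with e | e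
    · rw [e, eq_neg_of_add_eq_zero_right e, (l3 x).1]; simp [l]
    obtain ⟨w, hw⟩ := sep {x, y, x + y}
    have a := hw x (by simp) hx
    have b := hw y (by simp) hy
    have c := hw _ (by simp) e
    rw [map_add] at c
    wlog h : 0 < w x + w y generalizing w
    · exact this (-w) (fun z a b => by simpa using hw z a b) (by simpa) (by simpa) (by simp; omega) (by simp; omega)
    rcases a.lt_or_gt with a | a
    · rw [add_comm, mul_comm]; exact k w y x (by omega) (by simp; omega) (by simp; omega)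
    rcases b.lt_or_gt with b | b
    exacts [k w x y a (by simp; omega) (by simp; omega), l1 w x y a b]
  let σ : ℝ[Fin d → ℤ] →ₐ[ℝ] ℝ[Fin d → ℤ] := lift ℝ _ _ ⟨⟨fun x => single x.toAdd (l x.toAdd), by simp [l, one_def]⟩,
    fun x y => by simp [l4, single_mul_single]⟩
  have hσ : ∀ f x, (σ f).coeff x = l x * f.coeff x := fun f x => by
    induction f using induction_linear with
    | zero => simp
    | add f g a b => simp [a, b, mul_add]
    | single y a => by_cases e : x = y <;> simp [σ, e, mul_comm]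
  let L : (Fin d → ℤ) →+ ℝ := .mk' (fun x => Real.log (l x)) fun x y => by
    rw [l4, Real.log_mul (l3 x).2.ne' (l3 y).2.ne']
  have ex : ∀ x, Real.exp (-∑ i, -L (Pi.single i 1) * x i) = l x := fun x => by
    have : L x = ∑ i, L (Pi.single i 1) * x i := by
      conv_lhs => rw [pi_eq_sum_univ' x, map_sum]
      simp only [map_zsmul]
      simp [mul_comm]
    simp only [neg_mul, Finset.sum_neg_distrib, neg_neg, ← this]
    exact Real.exp_log (l3 x).2
  refine ⟨fun i => -L (Pi.single i 1), fun μ hμ x => ?_⟩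
  simp only [ex]
  obtain ⟨w, hw⟩ := sep ((μ.coeff.support ×ˢ μ.coeff.support).image fun p => p.1 - p.2)
  obtain ⟨v, hv, hv'⟩ := μ.coeff.support.exists_min_image w (Finset.nonempty_of_sum_ne_zero (hμ.2 ▸ one_ne_zero))
  have v0 : 0 < μ.coeff v := (hμ.1 v).lt_of_ne' (Finsupp.mem_support_iff.1 hv)
  have hp : Cn w ((μ.coeff v)⁻¹ • (μ * single (-v) 1)) := by
    refine ⟨fun x => ?_, fun x hx => ?_⟩ <;> rcases eq_or_ne x 0 with rfl | e
    · simp [v0.ne']
    · simpa [co e] using mul_nonneg (inv_pos.2 v0).le (hμ.1 _)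
    · simp [v0.ne']
    · by_contra c
      have c : x + v ∈ μ.coeff.support := Finsupp.mem_support_iff.2 fun f => c (by simp [co e, f])
      have a := hv' _ c
      have := hw x (Finset.mem_image.2 ⟨(x + v, v), Finset.mem_product.2 ⟨c, hv⟩, by simp⟩) e
      rw [map_add] at a; omega
  have k := main H σ.toRingHom l hσ (fun x h => if_neg h) hp
  have e : μ = (m ((μ.coeff v)⁻¹ • (μ * single (-v) 1)))⁻¹ • ((μ.coeff v)⁻¹ • (μ * single (-v) 1)) * single v 1 := by
    have : m μ = 1 := (hm' μ).trans hμ.2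
    simp [this, m, smul_smul, v0.ne', mul_assoc, single_mul_single, ← one_def]
  obtain ⟨c, hc⟩ : ∃ c, ∀ x, (Φ μ).coeff x = c * (μ.coeff x * l x) := by
    refine ⟨(Φ ((m ((μ.coeff v)⁻¹ • (μ * single (-v) 1)))⁻¹ • ((μ.coeff v)⁻¹ • (μ * single (-v) 1)))).coeff 0 *
      l (-v) * (μ.coeff v)⁻¹, fun x => ?_⟩
    have := congrArg (·.coeff (x + -v)) k
    simp only [Ψ, coeff_smul, Finsupp.smul_apply, smul_eq_mul, AlgHom.toRingHom_eq_coe, RingHom.coe_coe, hσ, l4,
      coeff_mul_single_apply, neg_neg, neg_add_cancel_right, inv_mul_eq_iff_eq_mul₀ (c0 hp).ne'] at this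
    conv_lhs => rw [e, hm _ _ (pn hp) (ps v), tr, coeff_mul_single_apply, this]
    ring
  have := (hP μ hμ).2
  simp only [hs μ hμ, hc, ← Finset.mul_sum] at this
  rw [hc, eq_inv_of_mul_eq_one_left this, inv_mul_eq_div]

end Pool.Agent.Results.MP_847c7e_pr.Boltz
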